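import Pool.Agent.X290.Bridge

/-!
# No local lifting is compatible with the global liftings

`K = F₂(T)`, the place is `∞`, so `F = K_∞ = F₂((1/T))`, the group is `GL₂` (split, so `L = F`) and `ρ` is the
standard representation of the dual group `GL₂(ℂ)`, so that `n = 2` and the unramified lifting is the identity.

There is no map `l : Irr(GL₂(K_∞)) → Irr(GL₂(K_∞))` such that for every automorphic representation `π` of `GL₂(𝔸)`
and every global lifting `τ` of `π` (an isobaric automorphic representation with `τ_v ≅ π_v` at all places where `π_v`
is unramified) the component of `τ` at `∞` is `l(π_∞)`.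

Proof: there are two automorphic representations with the component `St` at `∞`. The first is `St_∞ ⊗ 1`, an
irreducible quotient of a space of (regularized) Eisenstein series, whose global lifting is the trivial representation
`1 = |.|^(1/2) ⊞ |.|^(-1/2)`. The second is a cuspidal representation, generated by an explicit Poincare series, which
is its own global lifting. So `l(St)` would have to be both trivial and `St`.
-/

set_option autoImplicit false

namespace Pool.Agent.Results.MP_5ae62c_nt.NoLocalLifting

open Pool.Agent.X290 Pool.Agent.X290.Aut

theorem result : ¬ ∃ l : Irrep GInf → Irrep GInf,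
    ∀ π τ : Irrep Aut.GA, Aut.IsAutomorphic π → Aut.IsGlobalLifting π τ →
      ∀ σ, Aut.IsComponent Aut.inclInf σ π → Aut.IsComponent Aut.inclInf (l σ) τ :=
  no_local_lifting'

end Pool.Agent.Results.MP_5ae62c_nt.NoLocalLifting
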